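import Pool.Agent.helper68.FJ3.ChainMetric

set_option autoImplicit false
set_option linter.unusedVariables false

/-!
# Module B4b of the FJ3 project: barycentric coordinates
-/

namespace Pool.Agent.helper68.FJ3

open Pool.Agent.helper34.FJ2 Pool.Agent.helper34.FJ3
open scoped BigOperators

section

variable {V : Type} {Y : Complex2 V}

theorem isSimp_subset {σ τ : Set V} (h : IsSimp Y σ) (hne : τ.Nonempty) (hs : τ ⊆ σ) :
    IsSimp Y τ := by
  classical
  obtain ⟨v, hv⟩ := hne
  rcases h with ⟨a, rfl⟩ | ⟨a, b, hab, rfl⟩ | ⟨a, b, c, habc, rfl⟩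
  · left
    refine ⟨a, Set.Subset.antisymm hs ?_⟩
    rintro w rfl
    have : v = w := hs hv
    rwa [← this]
  · by_cases ha : a ∈ τ
    · by_cases hb : b ∈ τ
      · right; left
        refine ⟨a, b, hab, Set.Subset.antisymm hs ?_⟩
        rintro w (rfl | rfl) <;> assumption
      · left
        refine ⟨a, Set.Subset.antisymm ?_ ?_⟩
        · intro w hw
          rcases hs hw with h | h
          · exact h
          · exact absurd (h ▸ hw) hb
        · rintro w rfl; exact ha
    · left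
      have hvb : v = b := by
        rcases hs hv with h | h
        · exact absurd (h ▸ hv) ha
        · exact h
      refine ⟨b, Set.Subset.antisymm ?_ ?_⟩
      · intro w hw
        rcases hs hw with h | h
        · exact absurd (h ▸ hw) ha
        · exact h
      · rintro w rfl; rw [← hvb]; exact hv
  · have e1 := Y.tri_edge _ _ _ habc
    have e2 := Y.tri_edge' habc
    have e3 := Y.tri_edge'' habc
    by_cases ha : a ∈ τ <;> by_cases hb : b ∈ τ <;> by_cases hc : c ∈ τ
    · right; right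
      refine ⟨a, b, c, habc, Set.Subset.antisymm hs ?_⟩
      rintro w (rfl | rfl | rfl) <;> assumption
    · right; left
      refine ⟨a, b, e1, Set.Subset.antisymm ?_ ?_⟩
      · intro w hw
        rcases hs hw with h | h | h
        · exact Or.inl h
        · exact Or.inr h
        · exact absurd (h ▸ hw) hc
      · rintro w (rfl | rfl) <;> assumption
    · right; left
      refine ⟨a, c, e3, Set.Subset.antisymm ?_ ?_⟩
      · intro w hw
        rcases hs hw with h | h | h
        · exact Or.inl h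
        · exact absurd (h ▸ hw) hb
        · exact Or.inr h
      · rintro w (rfl | rfl) <;> assumption
    · left
      refine ⟨a, Set.Subset.antisymm ?_ ?_⟩
      · intro w hw
        rcases hs hw with h | h | h
        · exact h
        · exact absurd (h ▸ hw) hb
        · exact absurd (h ▸ hw) hc
      · rintro w rfl; assumption
    · right; left
      refine ⟨b, c, e2, Set.Subset.antisymm ?_ ?_⟩
      · intro w hw
        rcases hs hw with h | h | h
        · exact absurd (h ▸ hw) ha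
        · exact Or.inl h
        · exact Or.inr h
      · rintro w (rfl | rfl) <;> assumption
    · left
      refine ⟨b, Set.Subset.antisymm ?_ ?_⟩
      · intro w hw
        rcases hs hw with h | h | h
        · exact absurd (h ▸ hw) ha
        · exact h
        · exact absurd (h ▸ hw) hc
      · rintro w rfl; assumption
    · left
      refine ⟨c, Set.Subset.antisymm ?_ ?_⟩
      · intro w hw
        rcases hs hw with h | h | h
        · exact absurd (h ▸ hw) ha
        · exact absurd (h ▸ hw) hb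
        · exact h
      · rintro w rfl; assumption
    · exfalso
      rcases hs hv with h | h | h
      · exact ha (h ▸ hv)
      · exact hb (h ▸ hv)
      · exact hc (h ▸ hv)

theorem isSimp_card {σ : Set V} (h : IsSimp Y σ) : ∃ s : Finset V, (s : Set V) = σ ∧ s.card ≤ 3 := by
  classical
  rcases h with ⟨a, rfl⟩ | ⟨a, b, hab, rfl⟩ | ⟨a, b, c, habc, rfl⟩
  · exact ⟨{a}, by simp, by simp⟩
  · exact ⟨{a, b}, by simp, by
      refine (Finset.card_insert_le _ _).trans ?_
      simp⟩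
  · exact ⟨{a, b, c}, by simp, by
      refine (Finset.card_insert_le _ _).trans ?_
      refine Nat.succ_le_succ ((Finset.card_insert_le _ _).trans ?_)
      simp⟩

/-! ### the `ℓ¹` metric -/

/-- the `ℓ¹` norm -/
noncomputable def nrm (z : V →₀ ℝ) : ℝ := z.sum fun _ r => |r|

theorem nrm_eq (z : V →₀ ℝ) (s : Finset V) (h : z.support ⊆ s) : nrm z = ∑ v ∈ s, |z v| :=
  Finsupp.sum_of_support_subset z h _ (fun _ _ => abs_zero)

theorem nrm_nonneg (z : V →₀ ℝ) : 0 ≤ nrm z := Finset.sum_nonneg fun _ _ => abs_nonneg _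

theorem abs_le_nrm (z : V →₀ ℝ) (v : V) : |z v| ≤ nrm z := by
  classical
  rw [nrm_eq z (insert v z.support) (Finset.subset_insert _ _)]
  exact Finset.single_le_sum (f := fun v => |z v|) (fun _ _ => abs_nonneg _)
    (Finset.mem_insert_self _ _)

theorem nrm_add (z w : V →₀ ℝ) : nrm (z + w) ≤ nrm z + nrm w := by
  classical
  rw [nrm_eq z (z.support ∪ w.support) Finset.subset_union_left,
    nrm_eq w (z.support ∪ w.support) Finset.subset_union_right,
    nrm_eq (z + w) (z.support ∪ w.support) Finsupp.support_add, ← Finset.sum_add_distrib]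
  exact Finset.sum_le_sum fun v _ => abs_add_le _ _

theorem nrm_neg (z : V →₀ ℝ) : nrm (-z) = nrm z := by
  rw [nrm_eq (-z) z.support (by rw [Finsupp.support_neg]), nrm_eq z z.support le_rfl]
  exact Finset.sum_congr rfl fun v _ => by rw [Finsupp.neg_apply, abs_neg]

theorem nrm_sub_comm (z w : V →₀ ℝ) : nrm (z - w) = nrm (w - z) := by
  rw [← nrm_neg, neg_sub]

theorem abs_sum_le_nrm (z : V →₀ ℝ) : |z.sum fun _ r => r| ≤ nrm z :=
  Finset.abs_sum_le_sum_abs _ _

theorem nrm_eq_zero {z : V →₀ ℝ} (h : nrm z = 0) : z = 0 := by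
  ext v
  have := abs_le_nrm z v
  rw [h] at this
  exact abs_eq_zero.mp (le_antisymm this (abs_nonneg _))

theorem yext {x y : YPt Y} (h : x.x = y.x) : x = y := by
  cases x; cases y; simp only at h; subst h; rfl

theorem l1_def (x y : YPt Y) : YPt.l1 x y = nrm (x.x - y.x) := rfl

theorem l1_metric {V : Type} (Y : Complex2 V) : SeqMetric (YPt.l1 (Y := Y)) where
  nonneg x y := nrm_nonneg _
  self x := by rw [l1_def, sub_self, nrm]; exact Finsupp.sum_zero_index
  eq x y h := yext (sub_eq_zero.mp (nrm_eq_zero h))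
  symm x y := nrm_sub_comm _ _
  tri x y z := by
    rw [l1_def, l1_def, l1_def, ← sub_add_sub_cancel x.x y.x z.x]
    exact nrm_add _ _
  complete u hu := by
    classical
    -- coordinatewise limits
    have hlim : ∀ v, ∃ L : ℝ, Filter.Tendsto (fun n => (u n).x v) Filter.atTop (nhds L) := by
      intro v
      apply cauchySeq_tendsto_of_complete
      rw [Metric.cauchySeq_iff]
      intro ε hε
      obtain ⟨N, hN⟩ := hu ε hε
      refine ⟨N, fun m hm n hn => ?_⟩
      rw [Real.dist_eq]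
      have h1 := abs_le_nrm ((u m).x - (u n).x) v
      rw [Finsupp.sub_apply] at h1
      exact lt_of_le_of_lt h1 (hN m n hm hn)
    choose L hL using hlim
    have hL0 : ∀ v, 0 ≤ L v := fun v => ge_of_tendsto' (hL v) fun n => (u n).nn v
    -- finite subsets of the support of the limit
    have hsub : ∀ F : Finset V, (∀ v ∈ F, L v ≠ 0) → ∃ N, ∀ n, N ≤ n → ∀ v ∈ F, (u n).x v ≠ 0 := by
      intro F hF
      have : ∀ᶠ n in Filter.atTop, ∀ v ∈ F, (u n).x v ≠ 0 := by
        rw [Filter.eventually_all_finset]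
        intro v hv
        exact (hL v).eventually_ne (hF v hv)
      exact Filter.eventually_atTop.mp this
    have hfin : {v | L v ≠ 0}.Finite := by
      by_contra hinf
      obtain ⟨t, ht, hc⟩ := Set.Infinite.exists_subset_card_eq (s := {v | L v ≠ 0}) hinf 4
      obtain ⟨N, hN⟩ := hsub t (fun v hv => ht hv)
      obtain ⟨s, hs, hs3⟩ := isSimp_card (u N).simp
      have : t ⊆ s := by
        intro v hv
        have h1 : v ∈ {v | (u N).x v ≠ 0} := hN N le_rfl v hv
        rw [← hs] at h1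
        exact h1
      have := Finset.card_le_card this
      omega
    let A : Finset V := hfin.toFinset
    have hA : ∀ v, v ∈ A ↔ L v ≠ 0 := fun v => hfin.mem_toFinset
    let z : V →₀ ℝ := Finsupp.onFinset A L (fun v hv => (hA v).mpr hv)
    have hz : ∀ v, z v = L v := fun v => rfl
    have hconv : ∀ ε > 0, ∃ N, ∀ n, N ≤ n → nrm ((u n).x - z) < ε := by
      intro ε hε
      obtain ⟨N, hN⟩ := hu (ε / 2) (half_pos hε)
      refine ⟨N, fun n hn => ?_⟩
      let S : Finset V := ((u n).x - z).support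
      have h1 : Filter.Tendsto (fun m => ∑ v ∈ S, |(u n).x v - (u m).x v|) Filter.atTop
          (nhds (∑ v ∈ S, |(u n).x v - L v|)) := by
        apply tendsto_finsetSum
        intro v _
        exact (tendsto_const_nhds.sub (hL v)).abs
      have h2 : nrm ((u n).x - z) = ∑ v ∈ S, |(u n).x v - L v| := by
        rw [nrm_eq _ S le_rfl]
        exact Finset.sum_congr rfl fun v _ => by rw [Finsupp.sub_apply, hz]
      rw [h2]
      refine lt_of_le_of_lt (le_of_tendsto h1 ?_) (half_lt_self hε)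
      filter_upwards [Filter.eventually_ge_atTop N] with m hm
      refine le_trans ?_ (hN n m hn hm).le
      rw [l1_def, nrm_eq ((u n).x - (u m).x) (((u n).x - (u m).x).support ∪ S)
        Finset.subset_union_left]
      refine (Finset.sum_le_sum_of_subset_of_nonneg Finset.subset_union_right
        (fun v _ _ => abs_nonneg _)).trans_eq' ?_
      exact Finset.sum_congr rfl fun v _ => by rw [Finsupp.sub_apply]
    have hsum : (z.sum fun _ r => r) = 1 := by
      by_contra hne
      have hpos : 0 < |(z.sum fun _ r => r) - 1| := abs_pos.mpr (sub_ne_zero.mpr hne)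
      obtain ⟨N, hN⟩ := hconv _ hpos
      have h1 := hN N le_rfl
      have h2 := abs_sum_le_nrm ((u N).x - z)
      rw [Finsupp.sum_sub_index (fun _ _ _ => rfl), (u N).sum_one, abs_sub_comm] at h2
      linarith
    have hne : {v | z v ≠ 0}.Nonempty := by
      by_contra hemp
      rw [Set.not_nonempty_iff_eq_empty] at hemp
      have : z = 0 := by
        ext v
        by_contra hv
        have : v ∈ {v | z v ≠ 0} := hv
        rw [hemp] at this
        exact this
      rw [this, Finsupp.sum_zero_index] at hsum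
      exact zero_ne_one hsum
    have hsimp : IsSimp Y {v | z v ≠ 0} := by
      obtain ⟨N, hN⟩ := hsub A (fun v hv => (hA v).mp hv)
      exact isSimp_subset (u N).simp hne fun v hv => hN N le_rfl v ((hA v).mpr hv)
    exact ⟨⟨z, hL0, hsum, hsimp⟩, hconv⟩

theorem comm_near {V : Type} (Y : Complex2 V) (x : YPt Y) :
    ∃ ε > 0, ∀ y, YPt.l1 x y < ε → x.Comm y := by
  classical
  have hne : x.x.support.Nonempty := by
    rw [Finset.nonempty_iff_ne_empty]
    intro h
    have := x.sum_one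
    rw [Finsupp.support_eq_empty] at h
    rw [h, Finsupp.sum_zero_index] at this
    exact zero_ne_one this
  obtain ⟨a, ha, hmin⟩ := Finset.exists_min_image x.x.support (fun v => x.x v) hne
  have hpos : 0 < x.x a := lt_of_le_of_ne (x.nn a) (Finsupp.mem_support_iff.mp ha).symm
  refine ⟨x.x a, hpos, fun y hy => ⟨{v | y.x v ≠ 0}, y.simp, ?_, le_rfl⟩⟩
  intro v hv hv0
  have h1 := abs_le_nrm (x.x - y.x) v
  rw [Finsupp.sub_apply, hv0, sub_zero, abs_of_nonneg (x.nn v)] at h1
  have h2 := hmin v (Finsupp.mem_support_iff.mpr hv)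
  rw [l1_def] at hy
  linarith

/-- the vertex -/
noncomputable def vpt {V : Type} (Y : Complex2 V) (v : V) : YPt Y where
  x := Finsupp.single v 1
  nn w := by
    classical
    rw [Finsupp.single_apply]
    split_ifs <;> norm_num
  sum_one := Finsupp.sum_single_index rfl
  simp := by
    classical
    left
    refine ⟨v, ?_⟩
    ext w
    simp only [Set.mem_ofPred_eq, Finsupp.single_apply, Set.mem_singleton_iff]
    constructor
    · intro h
      by_contra hne
      exact h (if_neg (fun h => hne h.symm))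
    · rintro rfl
      simp

theorem vpt_supp {V : Type} (Y : Complex2 V) (v w : V) (h : (vpt Y v).x w ≠ 0) : w = v := by
  classical
  by_contra hne
  apply h
  change Finsupp.single v (1 : ℝ) w = 0
  rw [Finsupp.single_apply, if_neg (fun h => hne h.symm)]

theorem comm_symm (x y : YPt Y) (h : x.Comm y) : y.Comm x := by
  obtain ⟨σ, h1, h2, h3⟩ := h
  exact ⟨σ, h1, h3, h2⟩

theorem comm_vpt (x : YPt Y) : ∃ v, x.Comm (vpt Y v) := by
  have hne : x.x.support.Nonempty := by
    rw [Finset.nonempty_iff_ne_empty]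
    intro h
    have := x.sum_one
    rw [Finsupp.support_eq_empty] at h
    rw [h, Finsupp.sum_zero_index] at this
    exact zero_ne_one this
  obtain ⟨v, hv⟩ := hne
  refine ⟨v, {v | x.x v ≠ 0}, x.simp, le_rfl, ?_⟩
  intro w hw
  rw [vpt_supp Y v w hw]
  exact Finsupp.mem_support_iff.mp hv

theorem comm_conn {V : Type} (Y : Complex2 V) (hs : SimplyConnected Y) (x y : YPt Y) :
    ∃ (n : ℕ) (p : ℕ → YPt Y), p 0 = x ∧ p n = y ∧ ∀ i, i < n → (p i).Comm (p (i + 1)) := by
  obtain ⟨a, ha⟩ := comm_vpt x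
  obtain ⟨b, hb⟩ := comm_vpt y
  obtain ⟨l, hl, hl'⟩ := hs.2.1 a b
  have key : ∀ (l : List V) (a : V), IsPath Y a l →
      ∃ r, Ch YPt.Comm (fun _ _ => (0 : ℝ)) (vpt Y a) (vpt Y (endp a l)) r := by
    intro l
    induction l with
    | nil => intro a _; exact ⟨0, Ch.nil _⟩
    | cons b l ih =>
      intro a h
      obtain ⟨r, hr⟩ := ih b h.2
      refine ⟨_, Ch.cons _ _ _ _ ?_ hr⟩
      refine ⟨{a, b}, Or.inr (Or.inl ⟨a, b, h.1, rfl⟩), ?_, ?_⟩
      · intro w hw
        exact Or.inl (vpt_supp Y a w hw)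
      · intro w hw
        exact Or.inr (vpt_supp Y b w hw)
  obtain ⟨r, hr⟩ := key l a hl
  rw [hl'] at hr
  obtain ⟨n, p, h0, hn, hp, _⟩ := ((Ch.single ha).trans (hr.trans (Ch.single (comm_symm _ _ hb)))).fn
  exact ⟨n, p, h0, hn, hp⟩

/-! ### the Euclidean distances -/

open Classical in
theorem sqd_eq (len : V → V → ℝ) (z : V →₀ ℝ) (S : Finset V) (h : z.support ⊆ S) :
    sqd len z = -(1 / 2) * ∑ a ∈ S, ∑ b ∈ S, if a = b then 0 else z a * z b * len a b ^ 2 := by
  unfold sqd
  congr 1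
  rw [Finsupp.sum_of_support_subset z h]
  · apply Finset.sum_congr rfl
    intro a _
    rw [Finsupp.sum_of_support_subset z h]
    intro b _
    simp
  · intro a _
    simp [Finsupp.sum]

theorem sqd_two (len : V → V → ℝ) (hsym : ∀ a b, len a b = len b a) (z : V →₀ ℝ) {a b : V}
    (hab : a ≠ b) (h : ∀ v, z v ≠ 0 → v = a ∨ v = b) :
    sqd len z = -(z a * z b * len a b ^ 2) := by
  classical
  rw [sqd_eq len z {a, b} (by
    intro v hv
    rcases h v (Finsupp.mem_support_iff.mp hv) with h | h <;> simp [h])]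
  rw [Finset.sum_pair hab, Finset.sum_pair hab, Finset.sum_pair hab]
  simp only [if_true, if_neg hab, if_neg hab.symm, hsym b a]
  ring

theorem sqd_three (len : V → V → ℝ) (hsym : ∀ a b, len a b = len b a) (z : V →₀ ℝ) {a b c : V}
    (hab : a ≠ b) (hbc : b ≠ c) (hac : a ≠ c) (h : ∀ v, z v ≠ 0 → v = a ∨ v = b ∨ v = c) :
    sqd len z = -(z a * z b * len a b ^ 2 + z a * z c * len a c ^ 2 + z b * z c * len b c ^ 2) := by
  classical
  have hs : ∀ f : V → ℝ, ∑ v ∈ ({a, b, c} : Finset V), f v = f a + f b + f c := by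
    intro f
    rw [Finset.sum_insert (by simp [hab, hac]), Finset.sum_pair hbc, add_assoc]
  rw [sqd_eq len z {a, b, c} (by
    intro v hv
    rcases h v (Finsupp.mem_support_iff.mp hv) with h | h | h <;> simp [h])]
  simp only [hs, if_true, if_neg hab, if_neg hab.symm, if_neg hbc, if_neg hbc.symm, if_neg hac,
    if_neg hac.symm, hsym b a, hsym c a, hsym c b]
  ring

theorem nrm_two (z : V →₀ ℝ) {a b : V} (hab : a ≠ b) (h : ∀ v, z v ≠ 0 → v = a ∨ v = b) :
    nrm z = |z a| + |z b| ∧ (z.sum fun _ r => r) = z a + z b := by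
  classical
  have hsub : z.support ⊆ {a, b} := by
    intro v hv
    rcases h v (Finsupp.mem_support_iff.mp hv) with h | h <;> simp [h]
  constructor
  · rw [nrm_eq z _ hsub, Finset.sum_pair hab]
  · rw [Finsupp.sum_of_support_subset z hsub _ (fun _ _ => rfl), Finset.sum_pair hab]

theorem nrm_three (z : V →₀ ℝ) {a b c : V} (hab : a ≠ b) (hbc : b ≠ c) (hac : a ≠ c)
    (h : ∀ v, z v ≠ 0 → v = a ∨ v = b ∨ v = c) :
    nrm z = |z a| + |z b| + |z c| ∧ (z.sum fun _ r => r) = z a + z b + z c := by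
  classical
  have hsub : z.support ⊆ {a, b, c} := by
    intro v hv
    rcases h v (Finsupp.mem_support_iff.mp hv) with h | h | h <;> simp [h]
  have hs : ∀ f : V → ℝ, ∑ v ∈ ({a, b, c} : Finset V), f v = f a + f b + f c := by
    intro f
    rw [Finset.sum_insert (by simp [hab, hac]), Finset.sum_pair hbc, add_assoc]
  constructor
  · rw [nrm_eq z _ hsub, hs]
  · rw [Finsupp.sum_of_support_subset z hsub _ (fun _ _ => rfl), hs]

theorem exists_lower (S : Set ℝ) (hS : S.Finite) (hpos : ∀ r ∈ S, 0 < r) :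
    ∃ δ : ℝ, 0 < δ ∧ δ ≤ 1 ∧ ∀ r ∈ S, δ ≤ r := by
  induction S, hS using Set.Finite.induction_on with
  | empty => exact ⟨1, one_pos, le_rfl, fun r hr => absurd hr (Set.notMem_empty _)⟩
  | @insert r S _ _ ih =>
    obtain ⟨δ, h0, h1, h2⟩ := ih fun r hr => hpos r (Or.inr hr)
    refine ⟨min δ r, lt_min h0 (hpos r (Or.inl rfl)), (min_le_left _ _).trans h1, ?_⟩
    rintro s (rfl | hs)
    · exact min_le_right _ _
    · exact (min_le_left _ _).trans (h2 s hs)

/-- the quadratic form of a triangle -/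
theorem tri_form {x y w m M δ s t : ℝ} (hm : 0 < m) (hx : m ≤ x) (hy : m ≤ y) (hxM : x ≤ M)
    (hyM : y ≤ M) (hδ : 0 < δ) (hδ1 : δ ≤ 1)
    (hw : |x ^ 2 + y ^ 2 - w ^ 2| ≤ (1 - δ) * (2 * x * y)) :
    δ * m ^ 2 * (|s| + |t|) ^ 2 / 2 ≤
        s ^ 2 * x ^ 2 + t ^ 2 * y ^ 2 + s * t * (x ^ 2 + y ^ 2 - w ^ 2) ∧
      s ^ 2 * x ^ 2 + t ^ 2 * y ^ 2 + s * t * (x ^ 2 + y ^ 2 - w ^ 2) ≤
        M ^ 2 * (|s| + |t|) ^ 2 := by
  set a := |s| with ha
  set b := |t| with hb
  have ha0 : 0 ≤ a := abs_nonneg _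
  have hb0 : 0 ≤ b := abs_nonneg _
  have hs2 : s ^ 2 = a ^ 2 := (sq_abs s).symm
  have ht2 : t ^ 2 = b ^ 2 := (sq_abs t).symm
  have hx0 : 0 < x := hm.trans_le hx
  have hy0 : 0 < y := hm.trans_le hy
  have h1 : |s * t * (x ^ 2 + y ^ 2 - w ^ 2)| ≤ a * b * ((1 - δ) * (2 * x * y)) := by
    rw [abs_mul, abs_mul]
    exact mul_le_mul_of_nonneg_left hw (mul_nonneg ha0 hb0)
  have h2 := abs_le.mp h1
  rw [hs2, ht2]
  constructor
  · have h3 : δ * (a ^ 2 * x ^ 2 + b ^ 2 * y ^ 2) ≤
        a ^ 2 * x ^ 2 + b ^ 2 * y ^ 2 + s * t * (x ^ 2 + y ^ 2 - w ^ 2) := by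
      have h4 : 0 ≤ (1 - δ) * (a * x - b * y) ^ 2 :=
        mul_nonneg (by linarith) (sq_nonneg _)
      nlinarith [h2.1]
    have h5 : m ^ 2 * (a ^ 2 + b ^ 2) ≤ a ^ 2 * x ^ 2 + b ^ 2 * y ^ 2 := by
      have h6 : m ^ 2 ≤ x ^ 2 := pow_le_pow_left₀ hm.le hx 2
      have h7 : m ^ 2 ≤ y ^ 2 := pow_le_pow_left₀ hm.le hy 2
      nlinarith [sq_nonneg a, sq_nonneg b]
    have h8 : (a + b) ^ 2 / 2 ≤ a ^ 2 + b ^ 2 := by nlinarith [sq_nonneg (a - b)]
    have h9 : δ * m ^ 2 * ((a + b) ^ 2 / 2) ≤ δ * m ^ 2 * (a ^ 2 + b ^ 2) :=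
      mul_le_mul_of_nonneg_left h8 (by positivity)
    have h10 : δ * (m ^ 2 * (a ^ 2 + b ^ 2)) ≤ δ * (a ^ 2 * x ^ 2 + b ^ 2 * y ^ 2) :=
      mul_le_mul_of_nonneg_left h5 hδ.le
    linarith
  · have h3 : a * b * ((1 - δ) * (2 * x * y)) ≤ a * b * (2 * x * y) := by
      apply mul_le_mul_of_nonneg_left _ (mul_nonneg ha0 hb0)
      have : 0 ≤ 2 * x * y := by positivity
      nlinarith
    have h4 : a * x + b * y ≤ M * (a + b) := by nlinarith
    have h5 : (a * x + b * y) ^ 2 ≤ (M * (a + b)) ^ 2 :=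
      pow_le_pow_left₀ (by positivity) h4 2
    nlinarith [h2.2]

theorem sqd_bounds {V : Type} (Y : Complex2 V) (len : V → V → ℝ) (hn : NPC Y len)
    (hf : {r : ℝ | ∃ a b, Y.edge a b ∧ len a b = r}.Finite) :
    ∃ c C : ℝ, 0 < c ∧ 0 < C ∧ ∀ z : V →₀ ℝ, (z.sum fun _ r => r) = 0 →
      (∃ σ, IsSimp Y σ ∧ {v | z v ≠ 0} ⊆ σ) →
      c * nrm z ≤ Real.sqrt (sqd len z) ∧ Real.sqrt (sqd len z) ≤ C * nrm z := by
  obtain ⟨m, hm0, hm1, hm⟩ := exists_lower _ hf (by
    rintro r ⟨a, b, hab, rfl⟩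
    exact hn.pos a b hab)
  obtain ⟨M, hM⟩ := hf.bddAbove
  have hMm : ∀ a b, Y.edge a b → m ≤ len a b ∧ len a b ≤ max M 1 := fun a b hab =>
    ⟨hm _ ⟨a, b, hab, rfl⟩, (hM ⟨a, b, hab, rfl⟩).trans (le_max_left _ _)⟩
  have hM0 : 0 < max M 1 := lt_max_of_lt_right one_pos
  have hfin : {r : ℝ | ∃ a b c, Y.tri a b c ∧
      1 - |len a b ^ 2 + len a c ^ 2 - len b c ^ 2| / (2 * len a b * len a c) = r}.Finite := by
    refine ((hf.prod (hf.prod hf)).image fun t =>
      1 - |t.1 ^ 2 + t.2.1 ^ 2 - t.2.2 ^ 2| / (2 * t.1 * t.2.1)).subset ?_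
    rintro r ⟨a, b, c, h, rfl⟩
    exact ⟨(len a b, len a c, len b c), ⟨⟨_, _, Y.tri_edge _ _ _ h, rfl⟩,
      ⟨_, _, Y.tri_edge'' h, rfl⟩, ⟨_, _, Y.tri_edge' h, rfl⟩⟩, rfl⟩
  obtain ⟨δ, hδ0, hδ1, hδ⟩ := exists_lower _ hfin (by
    rintro r ⟨a, b, c, h, rfl⟩
    have h1 := hn.pos _ _ (Y.tri_edge _ _ _ h)
    have h2 := hn.pos _ _ (Y.tri_edge'' h)
    have h3 := hn.pos _ _ (Y.tri_edge' h)
    have h4 := hn.triangle _ _ _ (Y.tri_swap _ _ _ h)
    rw [hn.symm b a] at h4
    have h5 := hn.triangle _ _ _ h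
    have h6 := hn.triangle _ _ _ (Y.tri_swap' h)
    rw [hn.symm c b] at h6
    rw [sub_pos, div_lt_one (by positivity), abs_lt]
    constructor
    · nlinarith
    · nlinarith)
  have htri : ∀ a b c, Y.tri a b c → |len a b ^ 2 + len a c ^ 2 - len b c ^ 2| ≤
      (1 - δ) * (2 * len a b * len a c) := by
    intro a b c h
    have h1 := hn.pos _ _ (Y.tri_edge _ _ _ h)
    have h2 := hn.pos _ _ (Y.tri_edge'' h)
    have h3 := hδ _ ⟨a, b, c, h, rfl⟩
    rw [← div_le_iff₀ (by positivity)]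
    linarith
  -- the constants
  let c : ℝ := m * Real.sqrt (δ / 8)
  have hc : 0 < c := mul_pos hm0 (Real.sqrt_pos.mpr (by positivity))
  have hc2 : c ^ 2 = m ^ 2 * δ / 8 := by
    change (m * Real.sqrt (δ / 8)) ^ 2 = _
    rw [mul_pow, Real.sq_sqrt (by positivity)]
    ring
  refine ⟨c, max M 1, hc, hM0, ?_⟩
  intro z hz0 hσ
  suffices h : c ^ 2 * nrm z ^ 2 ≤ sqd len z ∧ sqd len z ≤ (max M 1) ^ 2 * nrm z ^ 2 by
    constructor
    · apply Real.le_sqrt_of_sq_le
      rw [mul_pow]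
      exact h.1
    · rw [Real.sqrt_le_left (mul_nonneg hM0.le (nrm_nonneg _)), mul_pow]
      exact h.2
  obtain ⟨σ, hσ, hsub⟩ := hσ
  rcases hσ with ⟨a, rfl⟩ | ⟨a, b, hab, rfl⟩ | ⟨a, b, d, habd, rfl⟩
  · have hza : z = 0 := by
      classical
      ext v
      by_cases hv : v = a
      · subst hv
        have h1 : (z.sum fun _ r => r) = z v := by
          rw [Finsupp.sum_of_support_subset z (s := {v}) ?_ _ (fun _ _ => rfl),
            Finset.sum_singleton]
          intro w hw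
          rw [Finset.mem_singleton]
          exact hsub (Finsupp.mem_support_iff.mp hw)
        rw [← h1, hz0]
        rfl
      · by_contra hv'
        exact hv (hsub hv')
    subst hza
    have h1 : nrm (0 : V →₀ ℝ) = 0 := Finsupp.sum_zero_index
    have h2 : sqd len (0 : V →₀ ℝ) = 0 := by
      unfold sqd
      rw [Finsupp.sum_zero_index, mul_zero]
    rw [h1, h2]
    constructor <;> nlinarith
  · have hne := Y.edge_ne hab
    have hs : ∀ v, z v ≠ 0 → v = a ∨ v = b := fun v hv => hsub hv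
    obtain ⟨h1, h2⟩ := nrm_two z hne hs
    rw [hz0] at h2
    have h3 : z a = - z b := by linarith
    rw [h1, sqd_two len hn.symm z hne hs, h3, abs_neg]
    obtain ⟨h4, h5⟩ := hMm a b hab
    have h6 : |z b| ^ 2 = z b ^ 2 := sq_abs _
    have h7 : (|z b| + |z b|) ^ 2 = 4 * z b ^ 2 := by rw [← h6]; ring
    rw [h7, hc2]
    have h8 : m ^ 2 ≤ len a b ^ 2 := pow_le_pow_left₀ hm0.le h4 2
    have h9 : len a b ^ 2 ≤ (max M 1) ^ 2 := pow_le_pow_left₀ (hm0.le.trans h4) h5 2
    have h10 := sq_nonneg (z b)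
    constructor
    · have : m ^ 2 * δ ≤ m ^ 2 := by nlinarith [sq_nonneg m]
      nlinarith
    · nlinarith
  · have e1 := Y.tri_edge _ _ _ habd
    have e2 := Y.tri_edge' habd
    have e3 := Y.tri_edge'' habd
    have hs : ∀ v, z v ≠ 0 → v = a ∨ v = b ∨ v = d := fun v hv => hsub hv
    obtain ⟨h1, h2⟩ := nrm_three z (Y.edge_ne e1) (Y.edge_ne e2) (Y.edge_ne e3) hs
    rw [hz0] at h2
    have h3 : z a = -(z b + z d) := by linarith
    have hform := tri_form (s := z b) (t := z d) hm0 (hMm _ _ e1).1 (hMm _ _ e3).1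
      (hMm _ _ e1).2 (hMm _ _ e3).2 hδ0 hδ1 (htri _ _ _ habd)
    rw [h1, sqd_three len hn.symm z (Y.edge_ne e1) (Y.edge_ne e2) (Y.edge_ne e3) hs, h3, abs_neg]
    have h4 : -(-(z b + z d) * z b * len a b ^ 2 + -(z b + z d) * z d * len a d ^ 2 +
        z b * z d * len b d ^ 2) = z b ^ 2 * len a b ^ 2 + z d ^ 2 * len a d ^ 2 +
        z b * z d * (len a b ^ 2 + len a d ^ 2 - len b d ^ 2) := by ring
    rw [h4, hc2]
    have h5 : |z b + z d| ≤ |z b| + |z d| := abs_add_le _ _
    have h6 := abs_nonneg (z b + z d)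
    have h7 := abs_nonneg (z b)
    have h8 := abs_nonneg (z d)
    constructor
    · have h9 : (|z b + z d| + |z b| + |z d|) ^ 2 ≤ (2 * (|z b| + |z d|)) ^ 2 :=
        pow_le_pow_left₀ (by positivity) (by linarith) 2
      have h10 : m ^ 2 * δ / 8 * (|z b + z d| + |z b| + |z d|) ^ 2 ≤
          m ^ 2 * δ / 8 * (2 * (|z b| + |z d|)) ^ 2 :=
        mul_le_mul_of_nonneg_left h9 (by positivity)
      refine h10.trans (le_trans (le_of_eq ?_) hform.1)
      ring
    · have h9 : (|z b| + |z d|) ^ 2 ≤ (|z b + z d| + |z b| + |z d|) ^ 2 :=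
        pow_le_pow_left₀ (by positivity) (by linarith) 2
      exact hform.2.trans (mul_le_mul_of_nonneg_left h9 (sq_nonneg _))

theorem eD_bounds {V : Type} (Y : Complex2 V) (len : V → V → ℝ) (hn : NPC Y len)
    (hf : {r : ℝ | ∃ a b, Y.edge a b ∧ len a b = r}.Finite) :
    ∃ c C : ℝ, 0 < c ∧ ∀ x y : YPt Y, x.Comm y →
      c * YPt.l1 x y ≤ YPt.eD len x y ∧ YPt.eD len x y ≤ C * YPt.l1 x y := by
  obtain ⟨c, C, hc, hC, h⟩ := sqd_bounds Y len hn hf
  refine ⟨c, C, hc, ?_⟩
  rintro x y ⟨σ, h1, h2, h3⟩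
  refine h (x.x - y.x) ?_ ⟨σ, h1, ?_⟩
  · rw [Finsupp.sum_sub_index (fun _ _ _ => rfl), x.sum_one, y.sum_one, sub_self]
  · intro v hv
    by_contra hσ
    apply hv
    have hx : x.x v = 0 := by
      by_contra h; exact hσ (h2 h)
    have hy : y.x v = 0 := by
      by_contra h; exact hσ (h3 h)
    rw [Finsupp.sub_apply, hx, hy, sub_zero]

theorem gD_bounds {V : Type} (Y : Complex2 V) (len : V → V → ℝ) (hn : NPC Y len)
    (hf : {r : ℝ | ∃ a b, Y.edge a b ∧ len a b = r}.Finite) :
    ∃ C : ℝ, 0 < C ∧ ∀ (v : V) (X Z : Sec Y v), X.Comm Z →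
      |X.sum - Z.sum| ≤ C * Sec.gD len X Z := by
  obtain ⟨c, C, hc, hC, h⟩ := sqd_bounds Y len hn hf
  refine ⟨1 / c, by positivity, ?_⟩
  intro v X Z hXZ
  set S : ℝ := (X.x - Z.x).sum fun _ r => r with hS
  have hSS : X.sum - Z.sum = S := by
    rw [hS, Finsupp.sum_sub_index (fun _ _ _ => rfl)]
    rfl
  set z : V →₀ ℝ := (X.x - Z.x) - Finsupp.single v S with hz
  have hz0 : (z.sum fun _ r => r) = 0 := by
    rw [hz, Finsupp.sum_sub_index (fun _ _ _ => rfl), Finsupp.sum_single_index rfl, ← hS, sub_self]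
  have hkey : (∃ σ, IsSimp Y σ ∧ {v | z v ≠ 0} ⊆ σ) ∧ X.x v = 0 ∧ Z.x v = 0 := by
    classical
    have hzd : ∀ d, z d ≠ 0 → d = v ∨ X.x d ≠ 0 ∨ Z.x d ≠ 0 := by
      intro d hd
      by_contra hcon
      push Not at hcon
      obtain ⟨h1, h2, h3⟩ := hcon
      apply hd
      rw [hz, Finsupp.sub_apply, Finsupp.sub_apply, h2, h3, Finsupp.single_apply,
        if_neg (fun h => h1 h.symm)]
      simp
    rcases hXZ with ⟨b, hb, hd⟩ | ⟨b, d', hb, hd⟩
    · refine ⟨⟨{v, b}, Or.inr (Or.inl ⟨v, b, hb, rfl⟩), ?_⟩, ?_, ?_⟩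
      · intro d h'
        rcases hzd d h' with h | h
        · exact Or.inl h
        · exact Or.inr (hd d h)
      · by_contra h'
        exact Y.edge_ne hb (hd v (Or.inl h'))
      · by_contra h'
        exact Y.edge_ne hb (hd v (Or.inr h'))
    · refine ⟨⟨{v, b, d'}, Or.inr (Or.inr ⟨v, b, d', hb, rfl⟩), ?_⟩, ?_, ?_⟩
      · intro d h'
        rcases hzd d h' with h | h
        · exact Or.inl h
        · exact Or.inr (hd d h)
      · by_contra h'
        rcases hd v (Or.inl h') with h | h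
        · exact Y.edge_ne (Y.tri_edge _ _ _ hb) h
        · exact Y.edge_ne (Y.tri_edge'' hb) h
      · by_contra h'
        rcases hd v (Or.inr h') with h | h
        · exact Y.edge_ne (Y.tri_edge _ _ _ hb) h
        · exact Y.edge_ne (Y.tri_edge'' hb) h
  obtain ⟨h1, h2, h3⟩ := hkey
  have h4 := (h z hz0 h1).1
  have h5 := abs_le_nrm z v
  have h6 : z v = -S := by
    rw [hz, Finsupp.sub_apply, Finsupp.sub_apply, h2, h3, Finsupp.single_eq_same]
    ring
  rw [h6, abs_neg] at h5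
  rw [hSS]
  have h7 : Sec.gD len X Z = Real.sqrt (sqd len z) := rfl
  rw [h7, one_div, inv_mul_eq_div, le_div_iff₀ hc]
  nlinarith

end

end Pool.Agent.helper68.FJ3
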