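import Pool.Agent.helper34.FJ3.DefsB

set_option autoImplicit false
set_option linter.unusedVariables false

/-!
# Module B4a of the FJ3 project: chain metrics
-/

namespace Pool.Agent.helper68.FJ3

open Pool.Agent.helper34.FJ2 Pool.Agent.helper34.FJ3
open scoped BigOperators

/-- `d` is a metric and complete -/
structure SeqMetric {X : Type} (d : X → X → ℝ) : Prop where
  nonneg : ∀ x y, 0 ≤ d x y
  self : ∀ x, d x x = 0
  eq : ∀ x y, d x y = 0 → x = y
  symm : ∀ x y, d x y = d y x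
  tri : ∀ x y z, d x z ≤ d x y + d y z
  complete : ∀ u : ℕ → X, (∀ ε > 0, ∃ N, ∀ m n, N ≤ m → N ≤ n → d (u m) (u n) < ε) →
    ∃ x, ∀ ε > 0, ∃ N, ∀ n, N ≤ n → d (u n) x < ε

/-- chains and their lengths -/
inductive Ch {X : Type} (Comm : X → X → Prop) (e : X → X → ℝ) : X → X → ℝ → Prop
  | nil (x : X) : Ch Comm e x x 0
  | cons (x y z : X) (l : ℝ) : Comm x y → Ch Comm e y z l → Ch Comm e x z (e x y + l)

theorem Ch.trans {X : Type} {Comm : X → X → Prop} {e : X → X → ℝ} {x y z : X} {l m : ℝ}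
    (h : Ch Comm e x y l) (h' : Ch Comm e y z m) : Ch Comm e x z (l + m) := by
  induction h with
  | nil x => simpa using h'
  | cons x y w l hc _ ih =>
    have := Ch.cons x y z _ hc (ih h')
    rwa [← add_assoc] at this

theorem Ch.single {X : Type} {Comm : X → X → Prop} {e : X → X → ℝ} {x y : X}
    (h : Comm x y) : Ch Comm e x y (e x y) := by
  have := Ch.cons (e := e) x y y 0 h (Ch.nil y)
  rwa [add_zero] at this

theorem Ch.symm {X : Type} {Comm : X → X → Prop} {e : X → X → ℝ}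
    (hsymm : ∀ x y, Comm x y → Comm y x) (hes : ∀ x y, e x y = e y x) {x y : X} {l : ℝ}
    (h : Ch Comm e x y l) : Ch Comm e y x l := by
  induction h with
  | nil x => exact Ch.nil x
  | cons x y w l hc _ ih =>
    have := ih.trans (Ch.single (e := e) (hsymm _ _ hc))
    rwa [hes y x, add_comm] at this

theorem Ch.fn {X : Type} {Comm : X → X → Prop} {e : X → X → ℝ} {x y : X} {l : ℝ}
    (h : Ch Comm e x y l) : ∃ (n : ℕ) (p : ℕ → X), p 0 = x ∧ p n = y ∧
        (∀ i, i < n → Comm (p i) (p (i + 1))) ∧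
        ∑ i ∈ Finset.range n, e (p i) (p (i + 1)) = l := by
  induction h with
  | nil x => exact ⟨0, fun _ => x, rfl, rfl, fun i hi => absurd hi (Nat.not_lt_zero _), by simp⟩
  | cons x y w l hc _ ih =>
    obtain ⟨n, p, h0, hn, hp, hs⟩ := ih
    refine ⟨n + 1, fun i => Nat.casesOn i x p, rfl, hn, ?_, ?_⟩
    · intro i hi
      cases i with
      | zero =>
        change Comm x (p 0)
        rw [h0]; exact hc
      | succ i => exact hp i (Nat.lt_of_succ_lt_succ hi)
    · rw [Finset.sum_range_succ', ← hs]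
      change _ + e x (p 0) = _
      rw [h0, add_comm]

theorem Ch.of_fn {X : Type} {Comm : X → X → Prop} {e : X → X → ℝ} (n : ℕ) :
    ∀ (p : ℕ → X), (∀ i, i < n → Comm (p i) (p (i + 1))) → ∃ l, Ch Comm e (p 0) (p n) l := by
  induction n with
  | zero => intro p _; exact ⟨0, Ch.nil _⟩
  | succ n ih =>
    intro p hp
    obtain ⟨l, hl⟩ := ih (fun i => p (i + 1)) (fun i hi => hp (i + 1) (Nat.succ_lt_succ hi))
    exact ⟨_, Ch.cons _ _ _ _ (hp 0 (Nat.succ_pos n)) hl⟩

theorem Ch.low {X : Type} {Comm : X → X → Prop} {e D : X → X → ℝ} {c : ℝ} (hc : 0 < c)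
    (hself : ∀ x, D x x = 0) (htri : ∀ x y z, D x z ≤ D x y + D y z)
    (hl : ∀ x y, Comm x y → c * D x y ≤ e x y) {x y : X} {l : ℝ}
    (h : Ch Comm e x y l) : c * D x y ≤ l := by
  induction h with
  | nil x => rw [hself, mul_zero]
  | cons x y z l hxy _ ih =>
    have h1 := hl x y hxy
    have h2 := mul_le_mul_of_nonneg_left (htri x y z) hc.le
    linarith [mul_add c (D x y) (D y z)]

theorem chain_metric {X : Type} (D : X → X → ℝ) (hD : SeqMetric D) (Comm : X → X → Prop)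
    (e : X → X → ℝ) (hrefl : ∀ x, Comm x x) (hsymm : ∀ x y, Comm x y → Comm y x)
    (he0 : ∀ x y, 0 ≤ e x y) (hes : ∀ x y, e x y = e y x) (c C : ℝ) (hc : 0 < c)
    (hl : ∀ x y, Comm x y → c * D x y ≤ e x y) (hu : ∀ x y, Comm x y → e x y ≤ C * D x y)
    (near : ∀ x, ∃ ε > 0, ∀ y, D x y < ε → Comm x y)
    (conn : ∀ x y, ∃ (n : ℕ) (p : ℕ → X), p 0 = x ∧ p n = y ∧ ∀ i, i < n → Comm (p i) (p (i + 1))) :
    ∃ d : X → X → ℝ, SeqMetric d ∧ (∀ x y, c * D x y ≤ d x y) ∧
      (∀ x y, Comm x y → d x y ≤ e x y) ∧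
      ∀ x y r, d x y < r → ∃ (n : ℕ) (p : ℕ → X), p 0 = x ∧ p n = y ∧
        (∀ i, i < n → Comm (p i) (p (i + 1))) ∧
        ∑ i ∈ Finset.range n, e (p i) (p (i + 1)) < r := by
  have hne : ∀ x y, {l | Ch Comm e x y l}.Nonempty := by
    intro x y
    obtain ⟨n, p, h0, hn, hp⟩ := conn x y
    obtain ⟨l, h⟩ := Ch.of_fn (e := e) n p hp
    rw [h0, hn] at h
    exact ⟨l, h⟩
  have hlow : ∀ x y l, Ch Comm e x y l → c * D x y ≤ l := fun x y l h =>
    Ch.low hc hD.self hD.tri hl h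
  have hbdd : ∀ x y, BddBelow {l | Ch Comm e x y l} := fun x y => ⟨c * D x y, fun l h => hlow x y l h⟩
  have hcD : ∀ x y, c * D x y ≤ sInf {l | Ch Comm e x y l} := fun x y =>
    le_csInf (hne x y) fun l h => hlow x y l h
  have hnn : ∀ x y, 0 ≤ sInf {l | Ch Comm e x y l} := fun x y =>
    (mul_nonneg hc.le (hD.nonneg x y)).trans (hcD x y)
  have hle : ∀ x y, Comm x y → sInf {l | Ch Comm e x y l} ≤ e x y := fun x y h =>
    csInf_le (hbdd x y) (Ch.single h)
  refine ⟨fun x y => sInf {l | Ch Comm e x y l}, ⟨hnn, ?_, ?_, ?_, ?_, ?_⟩, hcD, hle, ?_⟩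
  · intro x
    exact le_antisymm (csInf_le (hbdd x x) (Ch.nil x)) (hnn x x)
  · intro x y h
    apply hD.eq
    have h1 := hcD x y
    have h2 := hD.nonneg x y
    change sInf {l | Ch Comm e x y l} = 0 at h
    rw [h] at h1
    nlinarith
  · intro x y
    change sInf {l | Ch Comm e x y l} = sInf {l | Ch Comm e y x l}
    congr 1
    ext l
    exact ⟨fun h => Ch.symm hsymm hes h, fun h => Ch.symm hsymm hes h⟩
  · intro x y z
    change sInf {l | Ch Comm e x z l} ≤ sInf {l | Ch Comm e x y l} + sInf {l | Ch Comm e y z l}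
    apply le_of_forall_pos_le_add
    intro ε hε
    obtain ⟨l, hl1, hl2⟩ := exists_lt_of_csInf_lt (hne x y)
      (show sInf {l | Ch Comm e x y l} < sInf {l | Ch Comm e x y l} + ε / 2 by linarith)
    obtain ⟨m, hm1, hm2⟩ := exists_lt_of_csInf_lt (hne y z)
      (show sInf {l | Ch Comm e y z l} < sInf {l | Ch Comm e y z l} + ε / 2 by linarith)
    have := csInf_le (hbdd x z) (Ch.trans hl1 hm1)
    linarith
  · intro u hu'
    obtain ⟨x, hx⟩ := hD.complete u (by
      intro ε hε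
      obtain ⟨N, hN⟩ := hu' (c * ε) (mul_pos hc hε)
      refine ⟨N, fun m n hm hn => ?_⟩
      have h1 := hN m n hm hn
      have h2 := hcD (u m) (u n)
      exact lt_of_mul_lt_mul_left (lt_of_le_of_lt h2 h1) hc.le)
    refine ⟨x, fun ε hε => ?_⟩
    obtain ⟨η, hη, hnear⟩ := near x
    have hC : 0 < |C| + 1 := by positivity
    obtain ⟨N1, hN1⟩ := hx η hη
    obtain ⟨N2, hN2⟩ := hx (ε / (|C| + 1)) (div_pos hε hC)
    refine ⟨max N1 N2, fun n hn => ?_⟩
    have h1 := hN1 n ((le_max_left _ _).trans hn)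
    have h2 := hN2 n ((le_max_right _ _).trans hn)
    have h3 : Comm (u n) x := hsymm _ _ (hnear _ (by rw [hD.symm]; exact h1))
    have h4 := hle _ _ h3
    have h5 := hu _ _ h3
    have h6 : C * D (u n) x ≤ |C| * D (u n) x :=
      mul_le_mul_of_nonneg_right (le_abs_self C) (hD.nonneg _ _)
    have h7 := hD.nonneg (u n) x
    rw [lt_div_iff₀ hC] at h2
    change sInf {l | Ch Comm e (u n) x l} < ε
    nlinarith
  · intro x y r h
    obtain ⟨l, hl1, hl2⟩ := exists_lt_of_csInf_lt (hne x y) h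
    obtain ⟨n, p, h0, hn, hp, hs⟩ := hl1.fn
    exact ⟨n, p, h0, hn, hp, hs ▸ hl2⟩

end Pool.Agent.helper68.FJ3
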